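import Pool.Agent.H52R3.Cyl3

set_option autoImplicit false

/-!
# Covering the unit ball by cylinders with two-dimensional bases: a bound of order `1/d`

If the closed unit ball of `ℝ^d`, `d ≥ 4`, is covered by finitely many sets `H_i + B_i` with `H_i` a
`(d-2)`-dimensional subspace and `B_i` any subset of its orthogonal complement, then the areas of
the `B_i` sum to at least `2π / (d-2)`.
-/

namespace Pool.Agent.Results.MP_e3ef68_co.LinearBound

open MeasureTheory Module
open scoped Real ENNReal

section defs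

variable {V : Type*} [NormedAddCommGroup V] [InnerProductSpace ℝ V]

variable (V) in
/-- the data of a `k`-codimensional cylinder: a `k`-dimensional subspace `H` and a subset `B` of
its orthogonal complement -/
structure Cylinder (k : ℕ) where
  /-- the direction space -/
  H : Submodule ℝ V
  /-- its dimension -/
  dim : finrank ℝ H = k
  /-- the base -/
  B : Set Hᗮ

/-- the set `H + B` -/
def Cylinder.toSet {k : ℕ} (C : Cylinder V k) : Set V :=
  {x : V | ∃ h ∈ C.H, ∃ b ∈ C.B, x = h + (b : V)}

/-- the Lebesgue (outer) measure of the base in `H⊥` -/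
noncomputable def Cylinder.baseVol [FiniteDimensional ℝ V] [MeasurableSpace V] [BorelSpace V]
    {k : ℕ} (C : Cylinder V k) : ℝ≥0∞ := volume C.B

end defs

theorem result (d : ℕ) (hd : 4 ≤ d) (N : ℕ)
    (C : Fin N → Cylinder (EuclideanSpace ℝ (Fin d)) (d - 2))
    (hcov : Metric.closedBall 0 1 ⊆ ⋃ i, (C i).toSet) :
    ENNReal.ofReal (2 * π / ((d : ℝ) - 2)) ≤ ∑ i, (C i).baseVol := by
  have hfd : finrank ℝ (EuclideanSpace ℝ (Fin d)) = d := finrank_euclideanSpace_fin
  have h := Pool.Agent.H52R3.Cyl.ball_bound (fun i => (C i).H) (fun i => (C i).B) (k := d - 2)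
    (by omega) (fun i => (C i).dim) (by rw [hfd]; omega) hcov
  rw [hfd] at h
  have e1 : d - (d - 2) = 2 := by omega
  have e2 : ((d - 2 : ℕ) : ℝ) = (d : ℝ) - 2 := by
    rw [Nat.cast_sub (by omega)]
    norm_num
  have hdR : (4 : ℝ) ≤ d := by exact_mod_cast hd
  have e3 : Real.Gamma ((d : ℝ) / 2) =
      (((d : ℝ) - 2) / 2) * Real.Gamma (((d : ℝ) - 2) / 2) := by
    rw [← Real.Gamma_add_one (by
      have : 0 < ((d : ℝ) - 2) / 2 := by linarith
      exact this.ne')]
    congr 1
    ring
  have hG : 0 < Real.Gamma (((d : ℝ) - 2) / 2) := Real.Gamma_pos_of_pos (by linarith)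
  have e4 : √π ^ (d - (d - 2)) * Real.Gamma (((d - 2 : ℕ) : ℝ) / 2) / Real.Gamma ((d : ℝ) / 2) =
      2 * π / ((d : ℝ) - 2) := by
    rw [e1, e2, e3, Real.sq_sqrt Real.pi_pos.le]
    have h2 : (d : ℝ) - 2 ≠ 0 := by
      have : 0 < (d : ℝ) - 2 := by linarith
      exact this.ne'
    field_simp
  rw [e4] at h
  exact h

end Pool.Agent.Results.MP_e3ef68_co.LinearBound
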